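import Pool.Agent.Helper13.M.Defs
import Pool.Agent.Helper29.L.K5
import Pool.Agent.SC.G6core

/-!
# Project M, block LM: the local theorem at an arbitrary level
-/

set_option autoImplicit false

namespace Pool.Agent.M

open VC IntermediateField NumberField IsDedekindDomain Pool.Agent.SC Pool.Agent.L
  Pool.Agent.Helper91.Sect
open Pool.Agent.HG (Pr nm IsOdd)

noncomputable section

section inert

variable {k E : Type} [Field k] [Field E] [Algebra k E] {O : ValuationSubring E}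

theorem inert_mul29 {τ τ' : E ≃ₐ[k] E} (h : Inert O τ.toRingEquiv) (h' : Inert O τ'.toRingEquiv) :
    Inert O (τ * τ').toRingEquiv := by
  have hst : ∀ z, τ z ∈ O ↔ z ∈ O := h.stab
  have hst' : ∀ z, τ' z ∈ O ↔ z ∈ O := h'.stab
  refine ⟨fun z => ?_, fun z hz => ?_⟩
  · change τ (τ' z) ∈ O ↔ z ∈ O
    rw [hst, hst']
  · change O.valuation (τ (τ' z) - z) < 1
    have e : τ (τ' z) - z = τ (τ' z - z) + (τ z - z) := by
      rw [map_sub]
      ring
    rw [e]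
    exact Valuation.map_add_lt _ ((nonunit29 (σ := τ.toRingEquiv) h.stab _).2 (h'.res z hz))
      (h.res z hz)

theorem inert_inv29 {τ : E ≃ₐ[k] E} (h : Inert O τ.toRingEquiv) : Inert O (τ⁻¹).toRingEquiv := by
  have hst : ∀ z, τ z ∈ O ↔ z ∈ O := h.stab
  have hinv : ∀ z, τ (τ⁻¹ z) = z := fun z => τ.apply_symm_apply z
  refine ⟨fun z => ?_, fun z hz => ?_⟩
  · change τ⁻¹ z ∈ O ↔ z ∈ O
    rw [← hst, hinv]
  · change O.valuation (τ⁻¹ z - z) < 1
    have h1 : τ⁻¹ z ∈ O := by rw [← hst, hinv]; exact hz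
    have h2 : O.valuation (τ (τ⁻¹ z) - τ⁻¹ z) < 1 := h.res _ h1
    rw [hinv] at h2
    rwa [← Valuation.map_sub_swap]

end inert

section level

variable {E U K0 : Type} [Field E] [Field U] [Field K0] [Algebra E U] [Algebra K0 U]

/-- an automorphism over `L0` of `N = E K0 (Z')` is determined on `Z'` -/
theorem uniq29 {Z' : Finset U} {N : IntermediateField E U}
    (hN : N = IntermediateField.adjoin E (Set.range (algebraMap K0 U) ∪ Z')) {b b' : N ≃ₐ[E] N}
    (hb : b ∈ HS K0 N) (hb' : b' ∈ HS K0 N) (h : ∀ x : N, (x : U) ∈ Z' → b x = b' x) : b = b' := by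
  have hle : IntermediateField.adjoin E (Set.range (algebraMap K0 U) ∪ (Z' : Set U)) ≤ N := hN.symm.le
  have h1 : ∀ x : N, (b'⁻¹ * b) x = x := by
    intro x
    refine fix_adjoin29 (b := b'⁻¹ * b) hle ?_ x (by rw [← hN]; exact x.2)
    rintro y (hy | hy)
    · exact ((HS K0 N).mul_mem ((HS K0 N).inv_mem hb') hb) y (subset_adjoin _ _ hy)
    · rw [AlgEquiv.mul_apply, h y hy, ← AlgEquiv.mul_apply, inv_mul_cancel]
      rfl
  apply AlgEquiv.ext
  intro x
  have h2 := congrArg b' (h1 x)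
  rwa [← AlgEquiv.mul_apply, mul_inv_cancel_left] at h2

variable {k : Type} [Field k] [Algebra k E]

/-- the restriction of `Φ g` to a level -/
def res29 (N : IntermediateField E U) (Φ : (E ≃ₐ[k] E) →* (U ≃+* U))
    (hΦ : ∀ (g : E ≃ₐ[k] E) (x : U), x ∈ N → Φ g x ∈ N) (g : E ≃ₐ[k] E) : N ≃+* N where
  toFun x := ⟨Φ g x, hΦ g x x.2⟩
  invFun x := ⟨Φ g⁻¹ x, hΦ g⁻¹ x x.2⟩
  left_inv x := Subtype.ext (by
    have h1 : Φ g⁻¹ * Φ g = 1 := by rw [← map_mul, inv_mul_cancel, map_one]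
    exact congrArg (fun g : U ≃+* U => g x) h1)
  right_inv x := Subtype.ext (by
    have h1 : Φ g * Φ g⁻¹ = 1 := by rw [← map_mul, mul_inv_cancel, map_one]
    exact congrArg (fun g : U ≃+* U => g x) h1)
  map_mul' x y := Subtype.ext (map_mul (Φ g) (x : U) y)
  map_add' x y := Subtype.ext (map_add (Φ g) (x : U) y)

/-- the conjugate of `b` by `Φ g` -/
def conj29 (N : IntermediateField E U) (Φ : (E ≃ₐ[k] E) →* (U ≃+* U))
    (hΦ : ∀ (g : E ≃ₐ[k] E) (x : U), x ∈ N → Φ g x ∈ N)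
    (hE : ∀ (g : E ≃ₐ[k] E) (e : E), Φ g (algebraMap E U e) = algebraMap E U (g e))
    (g : E ≃ₐ[k] E) (b : N ≃ₐ[E] N) : N ≃ₐ[E] N :=
  AlgEquiv.ofRingEquiv (f := ((res29 N Φ hΦ g).symm.trans b.toRingEquiv).trans (res29 N Φ hΦ g)) (by
    intro e
    change res29 N Φ hΦ g (b ((res29 N Φ hΦ g).symm (algebraMap E N e))) = _
    have h1 : (res29 N Φ hΦ g).symm (algebraMap E N e) = algebraMap E N (g⁻¹ e) :=
      Subtype.ext (hE g⁻¹ e)
    have h2 : ∀ e : E, res29 N Φ hΦ g (algebraMap E N e) = algebraMap E N (g e) := fun e =>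
      Subtype.ext (hE g e)
    rw [h1, AlgEquiv.commutes, h2]
    congr 1
    exact g.apply_symm_apply e)

/-- an automorphism which commutes with `b` fixes the place below the places fixed by `b` -/
theorem moves29 {N0 N : IntermediateField E U} (hN0 : IsFunctionField E N0)
    (hN : IsFunctionField E N) (hle : N0 ≤ N) {Φ : (E ≃ₐ[k] E) →* (U ≃+* U)}
    (hΦ : ∀ (g : E ≃ₐ[k] E) (x : U), x ∈ N → Φ g x ∈ N)
    (hE : ∀ (g : E ≃ₐ[k] E) (e : E), Φ g (algebraMap E U e) = algebraMap E U (g e))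
    {b : N ≃ₐ[E] N} (hK : ∀ Q Q' : Place E N, (∀ x ∈ Q.ring, b x ∈ Q.ring) →
      (∀ x ∈ Q'.ring, b x ∈ Q'.ring) → SamePlace N0 N Q Q')
    {Q : Place E N} (hQ : ∀ x ∈ Q.ring, b x ∈ Q.ring) (g : E ≃ₐ[k] E)
    (hg : conj29 N Φ hΦ hE g b = b) :
    Moves (Φ g) N0 (Place.comap hN0 hN (IntermediateField.inclusion hle) Q)
      (Place.comap hN0 hN (IntermediateField.inclusion hle) Q) := by
  have hcomm : ∀ x : N, (res29 N Φ hΦ g).symm (b x) = b ((res29 N Φ hΦ g).symm x) := by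
    intro x
    rw [RingEquiv.symm_apply_eq]
    conv_lhs => rw [← hg]
    rfl
  let Q' : Place E N :=
    { ring := Q.ring.comap (res29 N Φ hΦ g).symm.toRingHom
      algebraMap_mem := fun e => by
        change (res29 N Φ hΦ g).symm (algebraMap E N e) ∈ Q.ring
        have h1 : (res29 N Φ hΦ g).symm (algebraMap E N e) = algebraMap E N (g⁻¹ e) :=
          Subtype.ext (hE g⁻¹ e)
        rw [h1]
        exact Q.algebraMap_mem _
      ne_top := by
        intro htop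
        apply Q.ne_top
        rw [eq_top_iff]
        intro x _
        have h1 : res29 N Φ hΦ g x ∈ Q.ring.comap (res29 N Φ hΦ g).symm.toRingHom := by
          rw [htop]
          trivial
        have h2 : (res29 N Φ hΦ g).symm (res29 N Φ hΦ g x) ∈ Q.ring := h1
        rwa [RingEquiv.symm_apply_apply] at h2 }
  have hQ' : ∀ x : N, x ∈ Q'.ring ↔ (res29 N Φ hΦ g).symm x ∈ Q.ring := fun x => Iff.rfl
  have hS := hK Q Q' hQ (by
    intro x hx
    rw [hQ'] at hx ⊢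
    rw [hcomm]
    exact hQ _ hx)
  intro x hx hx'
  change (⟨x, hle hx⟩ : N) ∈ Q.ring ↔ (⟨Φ g x, hle hx'⟩ : N) ∈ Q.ring
  rw [hS ⟨Φ g x, hle hx'⟩ hx', hQ']
  have h1 : (res29 N Φ hΦ g).symm (⟨Φ g x, hle hx'⟩ : N) = ⟨x, hle hx⟩ := by
    rw [RingEquiv.symm_apply_eq]
    rfl
  rw [h1]

end level

/-- an involution over `L0` which moves `r` fixes only places over branch points -/
theorem bpl29 {E U K0 : Type} [Field E] [IsAlgClosed E] [CharZero E] [Field U] [Field K0]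
    [Algebra E U] [Algebra K0 U] {h : K0} {r : U} (hr : r ^ 2 = algebraMap K0 U h) (hr0 : r ≠ 0)
    (hL : IsFunctionField E (L0 E K0 (U := U))) {N : IntermediateField E U}
    (hN : IsFunctionField E N) (hLN : L0 E K0 (U := U) ≤ N) (hMN : MM E K0 r ≤ N)
    {b : N ≃ₐ[E] N} (hbK : ∀ x : N, (x : U) ∈ L0 E K0 (U := U) → b x = x) {ℓ : ℕ} (hℓ : 0 < ℓ)
    (hbℓ : b ^ ℓ = 1) (hbr : ∀ x : N, (x : U) = r → b x = -x)
    {Q : Place E N} (hQ : ∀ x ∈ Q.ring, b x ∈ Q.ring) :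
    BPl h (Place.comap hL hN (IntermediateField.inclusion hLN) Q) := by
  obtain ⟨P, hP⟩ : ∃ P, P = Place.comap hL hN (IntermediateField.inclusion hLN) Q := ⟨_, rfl⟩
  rw [← hP]
  have hPmem : ∀ y : L0 E K0 (U := U), y ∈ P.ring ↔ IntermediateField.inclusion hLN y ∈ Q.ring := by
    intro y
    rw [hP]
    rfl
  have hrM : r ∈ MM E K0 r := subset_adjoin _ _ (Or.inr rfl)
  rintro ⟨m, hm⟩
  obtain ⟨hh, hhdef⟩ : ∃ hh : L0 E K0 (U := U), hh = inL0 h := ⟨_, rfl⟩
  have hhU : ((hh : L0 E K0 (U := U)) : U) = r ^ 2 := by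
    rw [hhdef, hr]
    rfl
  rw [← hhdef] at hm
  have hh0 : hh ≠ 0 := by
    intro h0
    rw [h0, ZeroMemClass.coe_zero] at hhU
    exact hr0 (pow_eq_zero_iff two_ne_zero |>.1 hhU.symm)
  obtain ⟨π, hπ0, hπ⟩ := FF.exists_uniformizer hL P
  obtain ⟨z, hz⟩ : ∃ z, z = π ^ m := ⟨_, rfl⟩
  have hz0 : z ≠ 0 := by
    rw [hz]
    exact zpow_ne_zero _ hπ0
  obtain ⟨u, hu⟩ : ∃ u, u = hh / z ^ (2 : ℤ) := ⟨_, rfl⟩
  have hu0 : u ≠ 0 := by
    rw [hu]
    exact div_ne_zero hh0 (zpow_ne_zero _ hz0)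
  have hord : ord P.ring u = 0 := by
    rw [hu, FF.ord_div hL P hh0 (zpow_ne_zero _ hz0), FF.ord_zpow hL P hz0, hz,
      FF.ord_zpow hL P hπ0, hπ, hm]
    ring
  obtain ⟨hu1, hu2⟩ := G6.mem_of_ord_zero hL hu0 hord
  rw [hPmem] at hu1 hu2
  obtain ⟨rN, hrN⟩ : ∃ rN : N, (rN : U) = r := ⟨⟨r, hMN hrM⟩, rfl⟩
  obtain ⟨zN, hzN⟩ : ∃ zN : N, zN = IntermediateField.inclusion hLN z := ⟨_, rfl⟩
  obtain ⟨uN, huN⟩ : ∃ uN : N, uN = IntermediateField.inclusion hLN u := ⟨_, rfl⟩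
  rw [← huN] at hu1
  rw [map_inv₀, ← huN] at hu2
  have huN0 : uN ≠ 0 := by
    rw [huN]
    exact (map_ne_zero _).2 hu0
  have hx2 : (rN / zN) ^ 2 = uN := by
    have h1 : uN = IntermediateField.inclusion hLN hh / zN ^ 2 := by
      rw [huN, hu, map_div₀, hzN, ← map_pow]
      norm_cast
    have h2 : rN ^ 2 = IntermediateField.inclusion hLN hh := by
      apply Subtype.ext
      change ((rN ^ 2 : N) : U) = (hh : U)
      rw [hhU, ← hrN]
      rfl
    rw [div_pow, h2, h1]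
  have hv : Q.ring.valuation uN = 1 := by
    apply le_antisymm
    · rw [ValuationSubring.valuation_le_one_iff]
      exact hu1
    · have h2 : Q.ring.valuation uN⁻¹ ≤ 1 := by
        rw [ValuationSubring.valuation_le_one_iff]
        exact hu2
      have h3 : Q.ring.valuation uN ≠ 0 := by
        rw [Valuation.ne_zero_iff]
        exact huN0
      rw [map_inv₀] at h2
      exact (inv_le_one₀ (zero_lt_iff.2 h3)).1 h2
  have hvx : Q.ring.valuation (rN / zN) = 1 := by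
    rw [← hx2, map_pow] at hv
    exact (pow_eq_one_iff_of_nonneg zero_le two_ne_zero).1 hv
  have hbz : b zN = zN := hbK zN (by
    rw [hzN]
    exact z.2)
  refine not_unit_of_fixed (E := E) (R := Q.ring) (σ := fun x : N => b x) (v := rN / zN)
    (ξ := -1) ?_ Q.algebraMap_mem ?_ ?_ ?_ ?_ ?_ ?_
  · intro c x
    rw [map_add, AlgEquiv.commutes]
  · intro x hx
    exact FF.exists_residue hN Q hx
  · exact map_nonunits29 hℓ hbℓ hQ
  · intro h3
    have h4 : (2 : E) = 0 := by linear_combination -h3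
    exact two_ne_zero h4
  · rw [map_div₀, hbr rN hrN, hbz, map_neg, map_one]
    ring
  · rw [← ValuationSubring.valuation_le_one_iff, hvx]
  · rw [ValuationSubring.mem_nonunits_iff, hvx]
    exact lt_irrefl _

/-- **BLOCK LM.** -/
theorem lm (hK2 : StmtK2) (hK3 : StmtK3) (hK4 : StmtK4M) (hAR : StmtAR) : StmtLM := by
  classical
  intro k K0 E U _ _ _ _ _ _ _ _ _ _ _ _ h r geo Z
  have hcl : IsAlgClosed E := geo.clE
  have halg : Algebra.IsAlgebraic k E := geo.algE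
  have hch : CharZero E := charZero_of_injective_algebraMap (algebraMap k E).injective
  -- the level `N0`
  obtain ⟨Z0, C0, N0, hZZ0, hrZ0, hN0, hff0, -, hst0, -⟩ := hK3 k K0 E U h r geo Z
  have hZ0N0 : ∀ z ∈ Z0, z ∈ N0 := fun z hz => by
    rw [hN0]
    exact subset_adjoin _ _ (Or.inr hz)
  have hMN0 : MM E K0 r ≤ N0 := by
    rw [hN0]
    refine adjoin.mono E _ _ (Set.union_subset_union_right _ ?_)
    rintro _ rfl
    exact hrZ0
  have hN0st : ∀ T : U ≃+* U, (∀ x : K0, T (algebraMap K0 U x) = algebraMap K0 U x) →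
      (∀ e : E, ∃ e' : E, T (algebraMap E U e) = algebraMap E U e') → ∀ z ∈ N0, T z ∈ N0 := by
    intro T hT hTE z hz
    rw [hN0] at hz ⊢
    refine map_adjoin29 hTE ?_ hz
    rintro y (⟨y, rfl⟩ | hy)
    · rw [hT]
      exact subset_adjoin _ _ (Or.inl ⟨y, rfl⟩)
    · exact subset_adjoin _ _ (Or.inr (hst0 T hT y hy))
  -- the level `N`
  obtain ⟨Z4, hZ4⟩ := hK4 k K0 E U h r geo N0 hMN0 hff0
  obtain ⟨Z', C3, N, hZZ', hrZ', hN, hff, hfin, hst, hag⟩ := hK3 k K0 E U h r geo (Z0 ∪ Z4)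
  have hZ0Z' : ∀ z ∈ Z0, z ∈ Z' := fun z hz => hZZ' (Finset.mem_union_left _ hz)
  let HH : Subgroup (N ≃ₐ[E] N) := HS K0 N
  have hHfin : Finite HH := hfin
  have hKN : ∀ x : K0, algebraMap K0 U x ∈ N := fun x => by
    rw [hN]
    exact subset_adjoin _ _ (Or.inl ⟨x, rfl⟩)
  have hZN : ∀ z ∈ Z', z ∈ N := fun z hz => by
    rw [hN]
    exact subset_adjoin _ _ (Or.inr hz)
  have hN0N : N0 ≤ N := by
    rw [hN0, hN]
    exact adjoin.mono E _ _ (Set.union_subset_union_right _ fun z hz => hZ0Z' z hz)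
  have hMN : MM E K0 r ≤ N := hMN0.trans hN0N
  have hr0 : r ≠ 0 := by
    rintro rfl
    exact geo.rnot (zero_mem _)
  -- the data of block K2
  have hK2' : ∀ b : N ≃ₐ[E] N, ∃ (Z : Finset N) (S : Finset E), (∀ s ∈ S, s ≠ 0) ∧
      ((∃ ℓ : ℕ, ℓ.Prime ∧ b ^ ℓ = 1) → b ≠ 1 → (∀ P : Place E N, ∃ x ∈ P.ring, b x ∉ P.ring) →
      ∀ (O : ValuationSubring E) (σ τ : E ≃+* E) (p f : ℕ) (h T : U ≃+* U),
      FPair O σ τ p f h T → (∀ s ∈ S, O.valuation s = 1) → (∀ z ∈ Z, h z = z) →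
      (∀ z ∈ Z, T z = b z) → False) := by
    intro b
    by_cases hb : (∃ ℓ : ℕ, ℓ.Prime ∧ b ^ ℓ = 1) ∧ b ≠ 1 ∧
        ∀ P : Place E N, ∃ x ∈ P.ring, b x ∉ P.ring
    · obtain ⟨⟨ℓ, hℓ, h1⟩, h2, h3⟩ := hb
      obtain ⟨Z, S, h4, h5⟩ := hK2 E U (MM E K0 r) geo.cover N hff b ℓ hℓ h1 h2 h3
      exact ⟨Z, S, h4, fun _ _ _ => h5⟩
    · exact ⟨∅, ∅, by simp, fun h1 h2 h3 => absurd ⟨h1, h2, h3⟩ hb⟩
  choose Zb Sb hSb0 hKb using hK2'
  choose Cz hCz using fun z : N => agree29 (K0 := K0) hN z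
  have hHft : Fintype HH := Fintype.ofFinite HH
  let ZZ : Finset N := Finset.univ.biUnion fun b : HH => Zb b.1
  obtain ⟨Z2, -, -, hZ2, -, -, -, -, hst2, -⟩ :=
    hK3 k K0 E U h r geo (ZZ.image (Subtype.val : N → U))
  let Ctot : Finset E := C3 ∪ ZZ.biUnion Cz
  let Stot : Finset E := insert (Nat.card HH : E) (Finset.univ.biUnion fun b : HH => Sb b.1)
  have hcard0 : (Nat.card HH : E) ≠ 0 := Nat.cast_ne_zero.2 Nat.card_pos.ne'
  have hStot : ∀ s ∈ Stot, s ≠ 0 := by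
    intro s hs
    rcases Finset.mem_insert.1 hs with rfl | hs
    · exact hcard0
    · obtain ⟨b, -, hb⟩ := Finset.mem_biUnion.1 hs
      exact hSb0 b.1 s hb
  obtain ⟨Bad, hBad, hgood⟩ := hAR k E Stot Ctot hStot
  refine ⟨N0, hMN0, hff0, fun z hz => hZ0N0 z (hZZ0 hz), hN0st, Bad, hBad, ?_⟩
  intro v hv c hc Φ hΦ O F p f hdec
  obtain ⟨hS, hC⟩ := hgood v hv O hdec.above
  have hst' : ∀ (g : E ≃ₐ[k] E), ∀ z ∈ Z', Φ g z ∈ Z' := fun g => hst (Φ g) (hΦ.fixK g)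
  have hΦN : ∀ (g : E ≃ₐ[k] E) (x : U), x ∈ N → Φ g x ∈ N := by
    intro g x hx
    rw [hN] at hx ⊢
    refine map_adjoin29 (fun e => ⟨g e, hΦ.const g e⟩) ?_ hx
    rintro y (⟨y, rfl⟩ | hy)
    · rw [hΦ.fixK]
      exact subset_adjoin _ _ (Or.inl ⟨y, rfl⟩)
    · exact subset_adjoin _ _ (Or.inr (hst' g y hy))
  have hΦL : ∀ (g : E ≃ₐ[k] E) (x : U), x ∈ L0 E K0 (U := U) → Φ g x ∈ L0 E K0 (U := U) := by
    intro g x hx
    refine map_adjoin29 (fun e => ⟨g e, hΦ.const g e⟩) ?_ hx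
    rintro y ⟨y, rfl⟩
    rw [hΦ.fixK]
    exact subset_adjoin _ _ ⟨y, rfl⟩
  have hconj : ∀ (g : E ≃ₐ[k] E) (b : N ≃ₐ[E] N), b ∈ HH → conj29 N Φ hΦN hΦ.const g b ∈ HH := by
    intro g b hb x hx
    change res29 N Φ hΦN g (b ((res29 N Φ hΦN g).symm x)) = x
    have h1 : (((res29 N Φ hΦN g).symm x : N) : U) = Φ g⁻¹ x := rfl
    rw [hb _ (by rw [h1]; exact hΦL g⁻¹ _ hx)]
    exact (res29 N Φ hΦN g).apply_symm_apply x
  -- the action of an inertia element
  have hb : ∀ τ : E ≃ₐ[k] E, Inert O τ.toRingEquiv → ∃ b0 ∈ HH,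
      (∀ z : N, (z : U) ∈ Z' → Φ τ z = b0 z) ∧
      (∀ (n : ℕ) (z : N), (z : U) ∈ Z' → (Φ τ ^ n) (z : U) = ((b0 ^ n) z : N)) ∧
      ∀ n ℓ : ℕ, ℓ.Prime → (b0 ^ n) ^ ℓ = 1 → b0 ^ n ≠ 1 →
        ∃ P : Place E N, ∀ x ∈ P.ring, (b0 ^ n) x ∈ P.ring := by
    intro τ hτ
    have hτC := hC τ hτ
    obtain ⟨b0, hb0K, hb0⟩ := hag (Φ τ) (hΦ.fixK τ) (fun e => ⟨τ e, hΦ.const τ e⟩) (fun e he => by
      rw [hΦ.const, hτC e (Finset.mem_union_left _ he)])
    have hb0H : b0 ∈ HH := hb0K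
    have hpow : ∀ (n : ℕ) (z : N), (z : U) ∈ Z' → (Φ τ ^ n) (z : U) = ((b0 ^ n) z : N) := by
      intro n
      induction n with
      | zero => intro z _; rfl
      | succ n ih =>
        intro z hz
        have h1 : (Φ τ ^ (n + 1)) (z : U) = (Φ τ ^ n) (Φ τ (z : U)) := by
          rw [pow_succ]
          rfl
        have h2 := hst' τ _ hz
        rw [hb0 z hz] at h2
        rw [h1, hb0 z hz, ih _ h2, pow_succ, AlgEquiv.mul_apply]
    refine ⟨b0, hb0H, hb0, hpow, ?_⟩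
    intro n ℓ hℓ h1 h2
    by_contra hcon
    push Not at hcon
    have hbH : b0 ^ n ∈ HH := HH.pow_mem hb0H n
    have hΦF : ∀ z ∈ Z2, Φ F z ∈ Z2 := hst2 (Φ F) (hΦ.fixK F)
    obtain ⟨m, hm, hm1⟩ := exists_pow29 (Φ F) (Φ F).injective hΦF
    have hm2 : ∀ z ∈ Z2, Φ (F ^ m) z = z := by
      intro z hz
      rw [map_pow]
      have h3 : ∀ (i : ℕ) (y : U), ((Φ F) ^ i) y = (Φ F : U → U)^[i] y := by
        intro i
        induction i with
        | zero => intro y; rfl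
        | succ i ih =>
          intro y
          rw [pow_succ, Function.iterate_succ_apply, ← ih]
          rfl
      rw [h3]
      exact hm1 z hz
    refine hKb (b0 ^ n) ⟨ℓ, hℓ, h1⟩ h2 hcon O (F ^ m).toRingEquiv (τ ^ n).toRingEquiv p (f * m)
      (Φ (F ^ m)) (Φ (τ ^ n)) ?_ ?_ ?_ ?_
    · refine ⟨frob_pow29 hdec.frob hm, inert_pow29 hτ n, fun c => hΦ.const _ c,
        fun c => hΦ.const _ c, ?_⟩
      intro Z m' hm'
      obtain ⟨L, hL1, hL2⟩ := exists_cont29 hΦ.cont Z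
      obtain ⟨a, j, ha, hj⟩ := hdec.tame (F ^ m) (τ ^ n)
        (fun z => stab_pow29 (σ := F) hdec.frob.stable m z) (inert_pow29 hτ n) L hL1 m' hm'
      refine ⟨a, j, ha, fun z hz => ?_⟩
      have h3 := hL2 _ hj z hz
      rw [map_pow, map_mul, map_inv, map_pow, map_mul, map_mul, map_inv] at h3
      exact h3
    · intro s hs
      exact hS s (Finset.mem_insert_of_mem (Finset.mem_biUnion.2 ⟨⟨_, hbH⟩, Finset.mem_univ _, hs⟩))
    · intro z hz
      refine hm2 _ (hZ2 (Finset.mem_image_of_mem _ ?_))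
      exact Finset.mem_biUnion.2 ⟨⟨_, hbH⟩, Finset.mem_univ _, hz⟩
    · intro z hz
      have hzZ : z ∈ ZZ := Finset.mem_biUnion.2 ⟨⟨_, hbH⟩, Finset.mem_univ _, hz⟩
      refine hCz z (Φ (τ ^ n)) (b0 ^ n) (hΦ.fixK _) hbH ?_ ?_
      · intro x hx
        rw [map_pow]
        exact hpow n x hx
      · intro e he
        rw [hΦ.const]
        have h4 : τ e = e := hτC e (Finset.mem_union_right _ (Finset.mem_biUnion.2 ⟨z, hzZ, he⟩))
        have h5 : (τ ^ n) e = e := by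
          rw [iter29]
          exact Function.iterate_fixed h4 n
        rw [h5]
  -- powers which are trivial on `M` are trivial
  have htriv : ∀ b0 ∈ HH, (∀ n ℓ : ℕ, ℓ.Prime → (b0 ^ n) ^ ℓ = 1 → b0 ^ n ≠ 1 →
      ∃ P : Place E N, ∀ x ∈ P.ring, (b0 ^ n) x ∈ P.ring) → ∀ m : ℕ,
      (∀ x : N, (x : U) ∈ MM E K0 r → (b0 ^ m) x = x) → b0 ^ m = 1 := by
    intro b0 hb0H hpr m hsq
    by_contra hne
    have hfo : 0 < orderOf (⟨b0 ^ m, HH.pow_mem hb0H m⟩ : HH) := orderOf_pos _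
    obtain ⟨n, hn⟩ : ∃ n, n = orderOf (⟨b0 ^ m, HH.pow_mem hb0H m⟩ : HH) := ⟨_, rfl⟩
    rw [← hn] at hfo
    have hn' : n = orderOf (b0 ^ m) := by
      rw [hn]
      exact (Subgroup.orderOf_coe _).symm
    have hn1 : n ≠ 1 := by
      rw [hn']
      intro h1
      exact hne (orderOf_eq_one_iff.1 h1)
    obtain ⟨ℓ, hℓ, i, hi⟩ := Nat.exists_prime_and_dvd hn1
    have hi0 : 0 < i := by
      rcases Nat.eq_zero_or_pos i with h1 | h1
      · rw [h1, mul_zero] at hi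
        omega
      · exact h1
    have h1 : (b0 ^ (m * i)) ^ ℓ = 1 := by
      rw [← pow_mul, mul_assoc, mul_comm i ℓ, ← hi, pow_mul, hn', pow_orderOf_eq_one]
    have h2 : b0 ^ (m * i) ≠ 1 := by
      rw [pow_mul]
      refine pow_ne_one_of_lt_orderOf hi0.ne' ?_
      rw [← hn', hi]
      have := hℓ.two_le
      nlinarith
    obtain ⟨P, hP⟩ := hpr (m * i) ℓ hℓ h1 h2
    apply h2
    refine unram29 geo.cover hMN hff hℓ h1 ?_ hP
    intro x hx
    rw [pow_mul]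
    have h3 := hsq x hx
    clear hi hi0 h1 h2 hP
    induction i with
    | zero => rfl
    | succ i ih => rw [pow_succ, AlgEquiv.mul_apply, h3, ih]
  -- inertia without effect on the square root of `c`
  obtain ⟨d, hd⟩ := IsAlgClosed.exists_pow_nat_eq (algebraMap k E c) two_pos
  have hd0 : d ≠ 0 := by
    rintro rfl
    rw [zero_pow two_ne_zero] at hd
    exact hc ((map_eq_zero _).1 hd.symm)
  have hd0' : algebraMap E U d ≠ 0 := (map_ne_zero _).2 hd0
  have hfirst : ∀ τ : E ≃ₐ[k] E, Inert O τ.toRingEquiv →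
      (∀ d : E, d ^ 2 = algebraMap k E c → τ d = d) → ∀ z ∈ Z', Φ τ z = z := by
    intro τ hτ hτd
    obtain ⟨b0, hb0H, hb0, -, hpr⟩ := hb τ hτ
    have hTr : Φ τ r = r := by
      have h1 := hΦ.tw τ d hd
      rw [hτd d hd] at h1
      apply mul_right_cancel₀ hd0'
      linear_combination h1
    have h1 : b0 ^ 1 = 1 := by
      refine htriv b0 hb0H hpr 1 ?_
      rw [pow_one]
      refine fun x hx => fix_adjoin29 (b := b0) hMN ?_ x hx
      rintro x (hx | hx)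
      · exact hb0H x (subset_adjoin _ _ hx)
      · have h1 : (x : U) = r := hx
        apply Subtype.ext
        rw [← hb0 x (by rw [h1]; exact hrZ'), h1, hTr]
    intro z hz
    rw [pow_one] at h1
    have h2 := hb0 ⟨z, hZN z hz⟩ hz
    rw [h1] at h2
    exact h2
  refine ⟨fun τ hτ hτd z hz => hfirst τ hτ hτd z (hZ0Z' z (hZZ0 hz)), fun hodd => ?_⟩
  -- an inertia element with effect on the square root of `c`
  obtain ⟨τ₀, hτ₀, hτ₀d⟩ := hdec.odd c hodd
  obtain ⟨b0, hb0H, hb0, hpow, hprime⟩ := hb τ₀ hτ₀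
  have hTr : Φ τ₀ r = -r := by
    have h1 := hΦ.tw τ₀ d hd
    rw [hτ₀d d hd, map_neg] at h1
    apply mul_right_cancel₀ hd0'
    linear_combination -h1
  have hbr : ∀ x : N, (x : U) = r → b0 x = -x := by
    intro x hx
    apply Subtype.ext
    rw [← hb0 x (by rw [hx]; exact hrZ'), hx, hTr]
    rw [← hx]
    rfl
  have hsq : ∀ x : N, (x : U) ∈ MM E K0 r → (b0 ^ 2) x = x := by
    refine fun x hx => fix_adjoin29 (b := b0 ^ 2) hMN ?_ x hx
    intro x hx
    rw [pow_two, AlgEquiv.mul_apply]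
    rcases hx with hx | hx
    · have h1 : (x : U) ∈ L0 E K0 (U := U) := subset_adjoin _ _ hx
      rw [hb0H x h1, hb0H x h1]
    · have h1 : (x : U) = r := hx
      rw [hbr x h1, map_neg, hbr x h1, neg_neg]
  have hb2 : b0 ^ 2 = 1 := htriv b0 hb0H hprime 2 hsq
  have hb1 : b0 ≠ 1 := by
    intro h1
    have h2 := hbr ⟨r, hZN r hrZ'⟩ rfl
    rw [h1] at h2
    have h3 : r = -r := congrArg Subtype.val h2
    have hcU : CharZero U := charZero_of_injective_algebraMap (algebraMap E U).injective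
    have h4 : (2 : U) * r = 0 := by linear_combination h3
    rcases mul_eq_zero.1 h4 with h5 | h5
    · exact two_ne_zero h5
    · exact hr0 h5
  obtain ⟨Q, hQ⟩ := hprime 1 2 Nat.prime_two (by rw [pow_one]; exact hb2) (by rw [pow_one]; exact hb1)
  rw [pow_one] at hQ
  have hKK := fun Q Q' => hZ4 N hN0N (fun z hz => hZN z (hZZ' (Finset.mem_union_right _ hz))) hff b0
    hb0H hb2 hbr Q Q'
  have hL0N : L0 E K0 (U := U) ≤ N := by
    rw [hN]
    exact adjoin.mono E _ _ (Set.subset_union_left)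
  refine ⟨Place.comap geo.ff hff (IntermediateField.inclusion hL0N) Q,
    Place.comap hff0 hff (IntermediateField.inclusion hN0N) Q, ?_, ?_, ?_, ?_⟩
  · -- the place is a branch point
    exact bpl29 geo.rsq hr0 geo.ff hff hL0N hMN hb0H two_pos hb2 hbr hQ
  · intro x hx hx'
    exact Iff.rfl
  · -- the Frobenius element
    refine moves29 hff0 hff hN0N hΦN hΦ.const hKK hQ F ?_
    obtain ⟨b1, hb1⟩ : ∃ b1, b1 = conj29 N Φ hΦN hΦ.const F b0 := ⟨_, rfl⟩
    rw [← hb1]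
    have hb1H : b1 ∈ HH := by
      rw [hb1]
      exact hconj F b0 hb0H
    have hb1a : ∀ x : N, b1 x = res29 N Φ hΦN F (b0 ((res29 N Φ hΦN F).symm x)) := fun x => by
      rw [hb1]
      rfl
    obtain ⟨L, hL1, hL2⟩ := exists_cont29 hΦ.cont Z'
    obtain ⟨a, j, ha, hj⟩ := hdec.tame F τ₀ hdec.frob.stable hτ₀ L hL1 2 two_ne_zero
    have hao : Odd a := by
      by_contra hcon
      rw [Nat.not_odd_iff_even] at hcon
      have h1 := ha (-1) (by norm_num)
      rw [hcon.neg_one_pow, map_neg, map_one] at h1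
      have h2 : (2 : E) = 0 := by linear_combination -h1
      exact two_ne_zero h2
    have hba : b0 ^ a = b0 := by
      obtain ⟨t, rfl⟩ := hao
      rw [pow_add, pow_mul, hb2, one_pow, one_mul, pow_one]
    have hbb : ∀ x : N, b0 (b0 x) = x := by
      intro x
      have h1 := congrArg (fun g : N ≃ₐ[E] N => g x) hb2
      simp only [pow_two] at h1
      exact h1
    obtain ⟨W, hW⟩ : ∃ W : U ≃+* U, W = (Φ τ₀ ^ a)⁻¹ * (Φ F * Φ τ₀ * (Φ F)⁻¹) := ⟨_, rfl⟩
    have hWΦ : W = Φ ((τ₀ ^ a)⁻¹ * (F * τ₀ * F⁻¹)) := by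
      rw [hW, map_mul, map_inv, map_pow, map_mul, map_mul, map_inv]
    let w : N ≃ₐ[E] N := b0 * b1
    have hwH : w ∈ HH := HH.mul_mem hb0H hb1H
    have hsymm : ∀ x : N, (((res29 N Φ hΦN F).symm x : N) : U) = Φ F⁻¹ x := fun x => rfl
    have hb1Z : ∀ x : N, (x : U) ∈ Z' → ((b1 x : N) : U) ∈ Z' := by
      intro x hx
      have h1 : (((res29 N Φ hΦN F).symm x : N) : U) ∈ Z' := by
        rw [hsymm]
        exact hst' F⁻¹ _ hx
      rw [hb1a]
      change Φ F ((b0 ((res29 N Φ hΦN F).symm x) : N) : U) ∈ Z'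
      rw [← hb0 _ h1]
      exact hst' F _ (hst' τ₀ _ h1)
    have hwZ : ∀ x : N, (x : U) ∈ Z' → ((w x : N) : U) ∈ Z' := by
      intro x hx
      change ((b0 (b1 x) : N) : U) ∈ Z'
      rw [← hb0 _ (hb1Z x hx)]
      exact hst' τ₀ _ (hb1Z x hx)
    have hWw : ∀ x : N, (x : U) ∈ Z' → W (x : U) = ((w x : N) : U) := by
      intro x hx
      have h1 : (((res29 N Φ hΦN F).symm x : N) : U) ∈ Z' := by
        rw [hsymm]
        exact hst' F⁻¹ _ hx
      have h2 : (Φ F * Φ τ₀ * (Φ F)⁻¹) (x : U) = ((b1 x : N) : U) := by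
        rw [hb1a]
        change Φ F (Φ τ₀ ((Φ F)⁻¹ (x : U))) = Φ F ((b0 ((res29 N Φ hΦN F).symm x) : N) : U)
        rw [← map_inv, ← hsymm, hb0 _ h1]
      have h3 : (Φ τ₀ ^ a) ((w x : N) : U) = ((b1 x : N) : U) := by
        rw [hpow a _ (hwZ x hx), hba]
        change ((b0 (b0 (b1 x)) : N) : U) = _
        rw [hbb]
      rw [hW]
      change (Φ τ₀ ^ a)⁻¹ ((Φ F * Φ τ₀ * (Φ F)⁻¹) (x : U)) = _
      rw [h2, ← h3]
      exact (Φ τ₀ ^ a).symm_apply_apply _
    have hWwn : ∀ (n : ℕ) (x : N), (x : U) ∈ Z' → (W ^ n) (x : U) = (((w ^ n) x : N) : U) := by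
      intro n
      induction n with
      | zero => intro x _; rfl
      | succ n ih =>
        intro x hx
        have h1 : (W ^ (n + 1)) (x : U) = (W ^ n) (W (x : U)) := by
          rw [pow_succ]
          rfl
        rw [h1, hWw x hx, ih _ (hwZ x hx), pow_succ w]
        rfl
    have hw1 : w ^ p ^ j = 1 := by
      refine uniq29 hN (HH.pow_mem hwH _) HH.one_mem fun x hx => ?_
      apply Subtype.ext
      rw [← hWwn _ x hx, hWΦ, ← map_pow]
      exact hL2 _ hj _ hx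
    have hpc : ¬ p ∣ Nat.card HH := by
      rintro ⟨q, hq⟩
      have h1 := hS (Nat.card HH : E) (Finset.mem_insert_self _ _)
      rw [hq, Nat.cast_mul, map_mul] at h1
      have h2 : O.valuation (q : E) ≤ 1 := by
        rw [O.valuation_le_one_iff]
        exact natCast_mem O q
      have h3 := mul_lt_one_of_lt_of_le hdec.frob.residue h2
      rw [h1] at h3
      exact lt_irrefl _ h3
    have hw2 : (⟨w, hwH⟩ : HH) = 1 := by
      rw [← orderOf_eq_one_iff]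
      have h1 : orderOf (⟨w, hwH⟩ : HH) ∣ p ^ j := by
        apply orderOf_dvd_of_pow_eq_one
        apply Subtype.ext
        exact hw1
      have h2 : orderOf (⟨w, hwH⟩ : HH) ∣ Nat.card HH := orderOf_dvd_natCard _
      have h3 : Nat.Coprime (p ^ j) (Nat.card HH) :=
        Nat.Coprime.pow_left _ ((Nat.Prime.coprime_iff_not_dvd hdec.frob.prime).2 hpc)
      exact Nat.eq_one_of_dvd_coprimes h3 h1 h2
    have hw3 : w = 1 := congrArg Subtype.val hw2
    have h4 : b0 * (b0 * b1) = b0 * 1 := by rw [← hw3]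
    rw [← mul_assoc, ← pow_two, hb2, one_mul, mul_one] at h4
    exact h4
  · -- the inertia elements
    intro τ hτ hτd
    refine moves29 hff0 hff hN0N hΦN hΦ.const hKK hQ τ ?_
    -- `Φ τ` acts on `Z'` as `b0`
    have hτz : ∀ z ∈ Z', Φ τ z = Φ τ₀ z := by
      intro z hz
      have h1 : Inert O (τ * τ₀⁻¹).toRingEquiv := inert_mul29 hτ (inert_inv29 hτ₀)
      have h2 : ∀ d : E, d ^ 2 = algebraMap k E c → (τ * τ₀⁻¹) d = d := by
        intro d hd
        have h3 : τ₀⁻¹ d = -d := by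
          have h4 : τ₀ (-d) = d := by rw [map_neg, hτ₀d d hd, neg_neg]
          calc τ₀⁻¹ d = τ₀⁻¹ (τ₀ (-d)) := by rw [h4]
            _ = -d := τ₀.symm_apply_apply _
        rw [AlgEquiv.mul_apply, h3, map_neg, hτd d hd, neg_neg]
      have h3 := hfirst _ h1 h2 _ (hst' τ₀ z hz)
      rw [map_mul, map_inv] at h3
      have h4 : (Φ τ * (Φ τ₀)⁻¹) (Φ τ₀ z) = Φ τ z := by
        change Φ τ ((Φ τ₀)⁻¹ (Φ τ₀ z)) = _
        congr 1
        exact (Φ τ₀).symm_apply_apply z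
      rw [← h4]
      exact h3
    have hτb : ∀ x : N, (x : U) ∈ Z' → Φ τ x = b0 x := fun x hx => by
      rw [hτz _ hx]
      exact hb0 x hx
    refine uniq29 hN (hconj τ b0 hb0H) hb0H fun x hx => ?_
    change res29 N Φ hΦN τ (b0 ((res29 N Φ hΦN τ).symm x)) = b0 x
    have h1 : (((res29 N Φ hΦN τ).symm x : N) : U) ∈ Z' := hst' τ⁻¹ _ hx
    have h2 : b0 ((res29 N Φ hΦN τ).symm x) = x := by
      apply Subtype.ext
      rw [← hτb _ h1]
      exact congrArg Subtype.val ((res29 N Φ hΦN τ).apply_symm_apply x)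
    rw [h2]
    apply Subtype.ext
    exact hτb x hx

end

end Pool.Agent.M
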