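import Mathlib

/-!
# Project M, block QW: finite commutative groups
-/

set_option autoImplicit false

namespace Pool.Agent.M

/-- if `c` kills the image of `ψ` then the kernel of `ψ` is at least as large as the image of `c` -/
theorem count29 {H V : Type} [CommGroup H] [Finite H] [Group V] (ψ : H →* H) (c : H →* V)
    (h : ∀ x, c (ψ x) = 1) : Nat.card c.range ≤ Nat.card ψ.ker := by
  have h1 : ψ.range ≤ c.ker := by
    rintro _ ⟨x, rfl⟩
    exact h x
  have h2 : Nat.card ψ.range ≤ Nat.card c.ker :=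
    Nat.card_le_card_of_injective _ (Subgroup.inclusion_injective h1)
  have h3 : Nat.card ψ.ker * Nat.card ψ.range = Nat.card H := by
    rw [← Subgroup.index_ker, Subgroup.card_mul_index]
  have h4 : Nat.card c.ker * Nat.card c.range = Nat.card H := by
    rw [← Subgroup.index_ker, Subgroup.card_mul_index]
  have h5 : 0 < Nat.card c.ker := Nat.card_pos
  have h6 : Nat.card c.ker * Nat.card c.range ≤ Nat.card c.ker * Nat.card ψ.ker := by
    rw [h4, ← h3, mul_comm]
    exact Nat.mul_le_mul_right _ h2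
  exact Nat.le_of_mul_le_mul_left h6 h5

/-- the order of a commutative group of exponent `2 ^ s` -/
theorem card_exp29 {H : Type} [CommGroup H] [Finite H] {N : ℕ}
    (h2 : Nat.card {x : H // x ^ 2 = 1} ≤ N) (s : ℕ) :
    Nat.card {x : H // x ^ 2 ^ s = 1} ≤ N ^ s := by
  induction s with
  | zero =>
    have h1 : Subsingleton {x : H // x ^ 2 ^ 0 = 1} := ⟨fun x y => Subtype.ext (by
      have h3 : (x : H) ^ 2 ^ 0 = 1 := x.2
      have h4 : (y : H) ^ 2 ^ 0 = 1 := y.2
      simp only [pow_zero, pow_one] at h3 h4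
      exact h3.trans h4.symm)⟩
    rw [pow_zero]
    exact Finite.card_le_one_iff_subsingleton.2 h1
  | succ s ih =>
    have h1 : Nat.card (powMonoidHom (2 ^ (s + 1)) : H →* H).ker ≤
        Nat.card {x : H // x ^ 2 = 1} * Nat.card {x : H // x ^ 2 ^ s = 1} := by
      let f : (powMonoidHom (2 ^ (s + 1)) : H →* H).ker →* H :=
        (powMonoidHom 2).comp (Subgroup.subtype _)
      have h3 : Nat.card f.ker * Nat.card f.range =
          Nat.card (powMonoidHom (2 ^ (s + 1)) : H →* H).ker := by
        rw [← Subgroup.index_ker, Subgroup.card_mul_index]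
      rw [← h3]
      refine Nat.mul_le_mul ?_ ?_
      · refine Nat.card_le_card_of_injective (fun x : f.ker => (⟨x.1.1, ?_⟩ : {x : H // x ^ 2 = 1})) ?_
        · exact x.2
        · intro x y hxy
          exact Subtype.ext (Subtype.ext (Subtype.mk.inj hxy))
      · refine Nat.card_le_card_of_injective
          (fun x : f.range => (⟨x.1, ?_⟩ : {x : H // x ^ 2 ^ s = 1})) ?_
        · obtain ⟨y, hy⟩ := x.2
          have h4 : (y : H) ^ 2 ^ (s + 1) = 1 := y.2
          have h5 : (y : H) ^ 2 = x.1 := hy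
          rw [← h5, ← pow_mul, ← pow_succ', h4]
        · intro x y hxy
          exact Subtype.ext (Subtype.mk.inj hxy)
    have h2' : Nat.card {x : H // x ^ 2 ^ (s + 1) = 1} =
        Nat.card (powMonoidHom (2 ^ (s + 1)) : H →* H).ker := by
      refine Nat.card_congr (Equiv.subtypeEquivRight fun x => ?_)
      exact Iff.rfl
    rw [h2', pow_succ' N]
    exact h1.trans (Nat.mul_le_mul h2 ih)

/-- a large commutative `2`-group with few elements of order `2` has elements of large order -/
theorem exists_order29 {H : Type} [CommGroup H] [Finite H] {n₀ s m : ℕ} (hn₀ : 0 < n₀) (hs : 0 < s)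
    (h2 : Nat.card {x : H // x ^ 2 = 1} ≤ 2 ^ n₀) (hm : ∀ x : H, x ^ 2 ^ m = 1)
    (hH : 2 ^ (n₀ * s) ≤ Nat.card H) : ∃ x : H, orderOf x = 2 ^ s := by
  obtain ⟨x, hx⟩ : ∃ x : H, x ^ 2 ^ (s - 1) ≠ 1 := by
    by_contra hcon
    push Not at hcon
    have h3 := card_exp29 h2 (s - 1)
    have h4 : Nat.card {x : H // x ^ 2 ^ (s - 1) = 1} = Nat.card H :=
      Nat.card_congr (Equiv.subtypeUnivEquiv hcon)
    rw [h4, ← pow_mul] at h3
    have h5 := hH.trans h3
    have h6 := (Nat.pow_le_pow_iff_right (by norm_num : 1 < 2)).1 h5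
    have h7 : s ≤ s - 1 := Nat.le_of_mul_le_mul_left h6 hn₀
    omega
  obtain ⟨t, ht, hot⟩ := (Nat.dvd_prime_pow Nat.prime_two).1 (orderOf_dvd_of_pow_eq_one (hm x))
  have hst : s ≤ t := by
    by_contra hcon
    push Not at hcon
    apply hx
    rw [← orderOf_dvd_iff_pow_eq_one, hot]
    exact pow_dvd_pow _ (by omega)
  refine ⟨x ^ 2 ^ (t - s), ?_⟩
  rw [orderOf_pow' _ (pow_ne_zero _ two_ne_zero), hot, Nat.gcd_eq_right (pow_dvd_pow _ (by omega)),
    Nat.pow_div (by omega) (by norm_num)]
  congr 1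
  omega

end Pool.Agent.M
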