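import Pool.Agent.Helper13.M.Defs
import Pool.Agent.SC.CoverLevels
import Pool.Agent.SC.G6core

/-!
# Project M, block QW: the duality statement inside `U`
-/

set_option autoImplicit false

namespace Pool.Agent.M

open VC IntermediateField NumberField IsDedekindDomain Pool.Agent.SC Pool.Agent.L

noncomputable section

/-- the exponent of the action on the roots of unity -/
theorem cyc29 {E : Type} [Field E] [IsAlgClosed E] [CharZero E] (τ : E ≃+* E) {n : ℕ} (hn : 0 < n) :
    ∃ χ : ℕ, ∀ ζ : E, ζ ^ n = 1 → τ ζ = ζ ^ χ := by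
  have h0 : NeZero (n : E) := ⟨Nat.cast_ne_zero.2 hn.ne'⟩
  have h0' : NeZero n := ⟨hn.ne'⟩
  obtain ⟨ξ, hξ⟩ := HasEnoughRootsOfUnity.exists_primitiveRoot E n
  have h1 : (τ ξ) ^ n = 1 := by rw [← map_pow, hξ.pow_eq_one, map_one]
  obtain ⟨χ, -, hχ⟩ := hξ.eq_pow_of_pow_eq_one h1
  refine ⟨χ, fun ζ hζ => ?_⟩
  obtain ⟨i, -, rfl⟩ := hξ.eq_pow_of_pow_eq_one hζ
  rw [map_pow, ← hχ, ← pow_mul, ← pow_mul, mul_comm]

/-- the exponent is prime to `n` -/
theorem cyc_coprime29 {E : Type} [Field E] [IsAlgClosed E] [CharZero E] {τ : E ≃+* E} {n χ : ℕ}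
    (hn : 0 < n) (hχ : ∀ ζ : E, ζ ^ n = 1 → τ ζ = ζ ^ χ) : Nat.Coprime χ n := by
  have h0 : NeZero (n : E) := ⟨Nat.cast_ne_zero.2 hn.ne'⟩
  have h0' : NeZero n := ⟨hn.ne'⟩
  obtain ⟨ξ, hξ⟩ := HasEnoughRootsOfUnity.exists_primitiveRoot E n
  have h1 : IsPrimitiveRoot (τ ξ) n := hξ.map_of_injective τ.injective
  rw [hχ ξ hξ.pow_eq_one] at h1
  exact (hξ.pow_iff_coprime hn χ).1 h1

/-- `StmtW1` inside a large field `U` -/
theorem w1U29 (hW1 : StmtW1) {E U : Type} [Field E] [IsAlgClosed E] [CharZero E] [Field U]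
    [Algebra E U] (L : IntermediateField E U) (hL : IsFunctionField E L) {n : ℕ} (hn : 1 < n)
    {w : U} (hw : w ≠ 0) (fw : L) (hfw : (fw : U) = w ^ n)
    (hdvd : ∀ P : Place E L, (n : ℤ) ∣ ord P.ring fw)
    (hprim : ∀ j : ℕ, 0 < j → j < n → w ^ j ∉ L) (φ : U ≃+* U) (τ : E ≃+* E) (χ : ℕ)
    (hφE : ∀ c : E, φ (algebraMap E U c) = algebraMap E U (τ c))
    (hφL : ∀ x : U, x ∈ L ↔ φ x ∈ L) (hζ : ∀ ζ : E, ζ ^ n = 1 → τ ζ = ζ ^ χ)
    (hφw : ∃ l ∈ L, φ w = l * w ^ χ) :
    ∃ f : Fin n → L, ∀ i, f i ≠ 0 ∧ (∀ P : Place E L, (n : ℤ) ∣ ord P.ring (f i)) ∧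
      (∃ l ∈ L, φ (f i) = f i * l ^ n) ∧ ∀ j, j ≠ i → ∀ l : L, f i ≠ f j * l ^ n := by
  obtain ⟨N, hN⟩ : ∃ N : IntermediateField E U,
      N = IntermediateField.adjoin E ((L : Set U) ∪ {w}) := ⟨_, rfl⟩
  have hle : L ≤ N := by
    rw [hN]
    intro x hx
    exact subset_adjoin _ _ (Or.inl hx)
  have hwN : w ∈ N := by
    rw [hN]
    exact subset_adjoin _ _ (Or.inr rfl)
  have hw0n : w ^ n ∈ L := by rw [← hfw]; exact fw.2
  -- `φ` preserves `N`
  have hmap : ∀ (ψ : U ≃+* U), (∀ x ∈ L, ψ x ∈ L) → ψ w ∈ N → ∀ x ∈ N, ψ x ∈ N := by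
    intro ψ hψL hψw x hx
    rw [hN] at hx
    induction hx using IntermediateField.adjoin_induction with
    | mem x hx =>
      rcases hx with hx | hx
      · exact hle (hψL x hx)
      · have h1 : x = w := hx
        rw [h1]
        exact hψw
    | algebraMap e => exact hle (hψL _ (L.algebraMap_mem e))
    | add x y hx hy h1 h2 => rw [map_add]; exact add_mem h1 h2
    | inv x hx h1 => rw [map_inv₀]; exact inv_mem h1
    | mul x y hx hy h1 h2 => rw [map_mul]; exact mul_mem h1 h2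
  have hφN : ∀ x ∈ N, φ x ∈ N := by
    refine hmap φ (fun x hx => (hφL x).1 hx) ?_
    obtain ⟨l, hl, h1⟩ := hφw
    rw [h1]
    exact mul_mem (hle hl) (pow_mem hwN _)
  have hφsL : ∀ x ∈ L, φ.symm x ∈ L := by
    intro x hx
    rw [hφL, RingEquiv.apply_symm_apply]
    exact hx
  have hφsN : ∀ x ∈ N, φ.symm x ∈ N := by
    refine hmap φ.symm hφsL ?_
    obtain ⟨l, hl, h1⟩ := hφw
    have hcop := cyc_coprime29 (E := E) (τ := τ) (by omega) hζ
    obtain ⟨u, hu⟩ := Nat.exists_mul_mod_eq_one_of_coprime hcop hn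
    obtain ⟨q, hq⟩ : ∃ q, χ * u = n * q + 1 := ⟨χ * u / n, by
      have := Nat.div_add_mod (χ * u) n
      omega⟩
    have hl0 : l ≠ 0 := by
      rintro rfl
      rw [zero_mul] at h1
      exact hw ((map_eq_zero φ).1 h1)
    have h2 : φ (w ^ u) = (l ^ u * (w ^ n) ^ q) * w := by
      rw [map_pow, h1, mul_pow, ← pow_mul, hq, pow_succ, pow_mul, mul_assoc]
    have h3 : φ.symm w = w ^ u * (φ.symm (l ^ u * (w ^ n) ^ q))⁻¹ := by
      rw [RingEquiv.symm_apply_eq, map_mul, map_inv₀, RingEquiv.apply_symm_apply, h2]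
      have h4 : l ^ u * (w ^ n) ^ q ≠ 0 := mul_ne_zero (pow_ne_zero _ hl0)
        (pow_ne_zero _ (pow_ne_zero _ hw))
      field_simp
    rw [h3]
    exact mul_mem (pow_mem hwN _) (inv_mem (hle (hφsL _ (mul_mem (pow_mem hl _)
      (pow_mem hw0n _)))))
  let φN : N ≃+* N :=
    { toFun := fun x => ⟨φ x, hφN x x.2⟩
      invFun := fun x => ⟨φ.symm x, hφsN x x.2⟩
      left_inv := fun x => Subtype.ext (φ.symm_apply_apply _)
      right_inv := fun x => Subtype.ext (φ.apply_symm_apply _)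
      map_mul' := fun x y => Subtype.ext (map_mul φ (x : U) y)
      map_add' := fun x y => Subtype.ext (map_add φ (x : U) y) }
  have hφN' : ∀ x : N, ((φN x : N) : U) = φ x := fun x => rfl
  obtain ⟨F0, hF0⟩ : ∃ F0 : IntermediateField E N, F0 = IntermediateField.restrict hle := ⟨_, rfl⟩
  have hmem : ∀ x : N, x ∈ F0 ↔ (x : U) ∈ L := fun x => by
    rw [hF0]
    exact IntermediateField.mem_restrict hle x
  -- `F0` and `L`
  let e : L →ₐ[E] F0 :=
    { toFun := fun x => ⟨⟨x, hle x.2⟩, (hmem _).2 x.2⟩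
      map_one' := rfl
      map_mul' := fun x y => rfl
      map_zero' := rfl
      map_add' := fun x y => rfl
      commutes' := fun c => rfl }
  have he : ∀ x : L, (((e x : F0) : N) : U) = x := fun x => rfl
  let e' : F0 →ₐ[E] L :=
    { toFun := fun x => ⟨((x : N) : U), (hmem _).1 x.2⟩
      map_one' := rfl
      map_mul' := fun x y => rfl
      map_zero' := rfl
      map_add' := fun x y => rfl
      commutes' := fun c => rfl }
  have he' : ∀ x : F0, ((e' x : L) : U) = ((x : N) : U) := fun x => rfl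
  have hF0ff : IsFunctionField E F0 := by
    let a1 : Algebra L F0 := e.toRingHom.toAlgebra
    have a2 : IsScalarTower E L F0 := IsScalarTower.of_algebraMap_eq fun x => rfl
    have a3 : FiniteDimensional L F0 := by
      have h1 : Function.Surjective (algebraMap L F0) := fun y => ⟨e' y, rfl⟩
      exact Module.Finite.of_surjective (Algebra.linearMap L F0) h1
    exact isFunctionField_of_finite8 (M := L) hL
  have hadj : IntermediateField.adjoin E ((F0 : Set N) ∪ {(⟨w, hwN⟩ : N)}) = ⊤ := by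
    rw [eq_top_iff]
    rintro ⟨x, hx⟩ -
    have hx' := hx
    rw [hN] at hx'
    have key : ∀ y (hy : y ∈ IntermediateField.adjoin E ((L : Set U) ∪ {w})) (hyN : y ∈ N),
        (⟨y, hyN⟩ : N) ∈ IntermediateField.adjoin E ((F0 : Set N) ∪ {(⟨w, hwN⟩ : N)}) := by
      intro y hy
      induction hy using IntermediateField.adjoin_induction with
      | mem x hx =>
        intro hyN
        rcases hx with hx | hx
        · exact subset_adjoin _ _ (Or.inl ((hmem _).2 hx))
        · have h1 : x = w := hx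
          subst h1
          exact subset_adjoin _ _ (Or.inr rfl)
      | algebraMap c =>
        intro hyN
        exact IntermediateField.algebraMap_mem _ c
      | add x y hx hy h1 h2 =>
        intro hyN
        have hxN : x ∈ N := by rw [hN]; exact hx
        have hyN' : y ∈ N := by rw [hN]; exact hy
        exact add_mem (h1 hxN) (h2 hyN')
      | inv x hx h1 =>
        intro hyN
        have hxN : x ∈ N := by rw [hN]; exact hx
        exact inv_mem (h1 hxN)
      | mul x y hx hy h1 h2 =>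
        intro hyN
        have hxN : x ∈ N := by rw [hN]; exact hx
        have hyN' : y ∈ N := by rw [hN]; exact hy
        exact mul_mem (h1 hxN) (h2 hyN')
    exact key x hx' hx
  obtain ⟨f, hf⟩ := hW1 E N F0 hF0ff n (⟨w, hwN⟩ : N) (by omega)
    (fun h => hw (congrArg Subtype.val h)) hadj (e fw)
    (Subtype.ext hfw) (fun P => by
      by_cases h0 : fw = 0
      · exfalso
        rw [h0, ZeroMemClass.coe_zero] at hfw
        exact pow_ne_zero _ hw hfw.symm
      · obtain ⟨r, -, hr⟩ := G6.exists_ram (E := E) (N := F0) hF0ff hL e P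
        rw [hr fw h0]
        exact (hdvd _).mul_left _)
    (fun j h1 h2 h3 => hprim j h1 h2 ((hmem _).1 h3)) φN τ χ
    (fun c => Subtype.ext (hφE c))
    (fun x => by rw [hmem, hmem, hφN']; exact hφL _) hζ (by
      obtain ⟨l, hl, h1⟩ := hφw
      exact ⟨⟨l, hle hl⟩, (hmem _).2 hl, Subtype.ext h1⟩)
  refine ⟨fun i => e' (f i), fun i => ?_⟩
  obtain ⟨h1, h2, h3, h4⟩ := hf i
  refine ⟨(map_ne_zero _).2 h1, fun P => ?_, ?_, ?_⟩
  · obtain ⟨r, -, hr⟩ := G6.exists_ram (E := E) (N := L) hL hF0ff e' P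
    rw [hr _ h1]
    exact (h2 _).mul_left _
  · obtain ⟨l, hl, h5⟩ := h3
    refine ⟨(l : U), (hmem _).1 hl, ?_⟩
    exact congrArg Subtype.val h5
  · intro j hj l hl
    apply h4 j hj (e l)
    have h6 : ((e' (f i) : L) : U) = ((e' (f j) * l ^ n : L) : U) :=
      congrArg (fun x : L => (x : U)) hl
    apply Subtype.ext
    apply Subtype.ext
    exact h6

end

end Pool.Agent.M
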