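import Pool.Agent.Helper13.M.Defs
import Pool.Agent.Helper99.M.MU
import Pool.Agent.Helper29.M.QWg
import Pool.Agent.Helper29.M.QWw
import Pool.Agent.SC.FU
import Pool.Agent.Helper17.FF.PicDiv

/-!
# Project M, block QW
-/

set_option autoImplicit false

namespace Pool.Agent.M

open VC IntermediateField NumberField IsDedekindDomain Pool.Agent.SC Pool.Agent.L

noncomputable section

section grp

variable {E K0 U : Type} [Field E] [IsAlgClosed E] [CharZero E] [Field K0] [Field U] [Algebra E U]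
  [Algebra K0 U]

omit [CharZero E] in
theorem UR_mul29 (ff : IsFunctionField E (L0 E K0 (U := U))) {n : ℕ} {w w' : U}
    (h : UR E K0 n w) (h' : UR E K0 n w') : UR E K0 n (w * w') := by
  obtain ⟨hw0, f, hf, hd⟩ := h
  obtain ⟨hw0', f', hf', hd'⟩ := h'
  have hf0 : f ≠ 0 := by
    rintro rfl
    exact pow_ne_zero _ hw0 hf.symm
  have hf0' : f' ≠ 0 := by
    rintro rfl
    exact pow_ne_zero _ hw0' hf'.symm
  refine ⟨mul_ne_zero hw0 hw0', f * f', ?_, fun P => ?_⟩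
  · change (f : U) * (f' : U) = _
    rw [hf, hf', mul_pow]
  · rw [FF.ord_mul ff P hf0 hf0']
    exact dvd_add (hd P) (hd' P)

omit [CharZero E] in
theorem UR_inv29 (ff : IsFunctionField E (L0 E K0 (U := U))) {n : ℕ} {w : U}
    (h : UR E K0 n w) : UR E K0 n w⁻¹ := by
  obtain ⟨hw0, f, hf, hd⟩ := h
  have hf0 : f ≠ 0 := by
    rintro rfl
    exact pow_ne_zero _ hw0 hf.symm
  refine ⟨inv_ne_zero hw0, f⁻¹, ?_, fun P => ?_⟩
  · change (f : U)⁻¹ = _
    rw [hf, inv_pow]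
  · rw [FF.ord_inv ff P hf0]
    exact (dvd_neg).2 (hd P)

omit [CharZero E] in
theorem UR_L0_29 (ff : IsFunctionField E (L0 E K0 (U := U))) (n : ℕ) {w : U} (hw0 : w ≠ 0)
    (h : w ∈ L0 E K0 (U := U)) : UR E K0 n w := by
  have h0 : (⟨w, h⟩ : L0 E K0 (U := U)) ≠ 0 := fun h1 => hw0 (congrArg Subtype.val h1)
  refine ⟨hw0, ⟨w, h⟩ ^ n, rfl, fun P => ?_⟩
  rw [FF.ord_pow ff P h0]
  exact dvd_mul_right _ _

omit [CharZero E] in
theorem UR_low29 (ff : IsFunctionField E (L0 E K0 (U := U))) {m s : ℕ} (hs : s ≤ m) {w : U}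
    (h : UR E K0 (2 ^ m) w) (hw : w ^ 2 ^ s ∈ L0 E K0 (U := U)) : UR E K0 (2 ^ s) w := by
  obtain ⟨hw0, f, hf, hd⟩ := h
  have hg0 : (⟨w ^ 2 ^ s, hw⟩ : L0 E K0 (U := U)) ≠ 0 := fun h1 =>
    pow_ne_zero _ hw0 (congrArg Subtype.val h1)
  refine ⟨hw0, ⟨w ^ 2 ^ s, hw⟩, rfl, fun P => ?_⟩
  have h1 : f = (⟨w ^ 2 ^ s, hw⟩ : L0 E K0 (U := U)) ^ 2 ^ (m - s) := by
    apply Subtype.ext
    rw [hf]
    change _ = (w ^ 2 ^ s) ^ 2 ^ (m - s)
    rw [← pow_mul, ← pow_add]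
    congr 2
    omega
  have h2 := hd P
  rw [h1, FF.ord_pow ff P hg0] at h2
  have h3 : ((2 ^ m : ℕ) : ℤ) = ((2 ^ (m - s) : ℕ) : ℤ) * ((2 ^ s : ℕ) : ℤ) := by
    rw [← Nat.cast_mul, ← pow_add]
    congr 2
    omega
  rw [h3] at h2
  exact Int.dvd_of_mul_dvd_mul_left (by positivity) h2

/-- finitely many classes -/
theorem fin29 (hFT : StmtFT) (ff : IsFunctionField E (L0 E K0 (U := U))) {n : ℕ} (hn : 0 < n) :
    ∃ T : Finset U, ∀ w : U, UR E K0 n w → ∃ t ∈ T, t ≠ 0 ∧ w * t⁻¹ ∈ L0 E K0 (U := U) := by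
  classical
  obtain ⟨T0, hT0, hT⟩ := hFT E (L0 E K0 (U := U)) ff n hn
  let s : L0 E K0 (U := U) → U := fun t =>
    if hs : ∃ y : U, y ^ n = (t : U) then hs.choose else 0
  have hs : ∀ t : L0 E K0 (U := U), ∀ y : U, y ^ n = (t : U) → s t ^ n = (t : U) := by
    intro t y hy
    have h1 : ∃ y : U, y ^ n = (t : U) := ⟨y, hy⟩
    have h2 : s t = h1.choose := dif_pos h1
    rw [h2]
    exact h1.choose_spec
  refine ⟨T0.image s, fun w hw => ?_⟩
  obtain ⟨hw0, f, hf, hd⟩ := hw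
  have hf0 : f ≠ 0 := by
    rintro rfl
    exact pow_ne_zero _ hw0 hf.symm
  obtain ⟨t, ht, l, hl⟩ := hT f hf0 hd
  have hl0 : (l : U) ≠ 0 := by
    intro h0
    apply hf0
    have h1 : l = 0 := Subtype.ext h0
    rw [hl, h1, zero_pow hn.ne', mul_zero]
  have ht0 : (t : U) ≠ 0 := fun h0 => hT0 t ht (Subtype.ext h0)
  have h1 : (w / l) ^ n = (t : U) := by
    rw [div_pow, ← hf, hl]
    change ((t : U) * (l : U) ^ n) / (l : U) ^ n = t
    rw [mul_div_cancel_right₀ _ (pow_ne_zero _ hl0)]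
  have h2 := hs t _ h1
  have hst0 : s t ≠ 0 := by
    intro h0
    rw [h0, zero_pow hn.ne'] at h2
    exact ht0 h2.symm
  refine ⟨s t, Finset.mem_image_of_mem _ ht, hst0, ?_⟩
  have h3 : ((w / l) / s t) ^ n = 1 := by rw [div_pow, h1, h2, div_self ht0]
  obtain ⟨ζ, -, hζ⟩ := root_const99 (E := E) hn h3
  have h4 : w * (s t)⁻¹ = algebraMap E U ζ * l := by
    rw [hζ]
    field_simp
  rw [h4]
  exact mul_mem (IntermediateField.algebraMap_mem _ _) l.2

omit [CharZero E] in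
/-- the map `UR (2 ^ m) → UR 2`, the power `2 ^ (m - 1)`, is onto modulo `L0` -/
theorem div29 [CharZero E] (ff : IsFunctionField E (L0 E K0 (U := U)))
    (hroot : ∀ (n : ℕ), 0 < n → ∀ f : L0 E K0 (U := U), f ≠ 0 →
      (∀ P : Place E (L0 E K0 (U := U)), (n : ℤ) ∣ ord P.ring f) → ∃ w : U, w ^ n = f)
    {w₂ : U} (hw₂ : UR E K0 2 w₂) {m : ℕ} (hm : 0 < m) :
    ∃ w : U, UR E K0 (2 ^ m) w ∧ ∃ l ∈ L0 E K0 (U := U), l ≠ 0 ∧ w ^ 2 ^ (m - 1) = l * w₂ := by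
  classical
  obtain ⟨hw0, f, hf, hd⟩ := hw₂
  have hf0 : f ≠ 0 := by
    rintro rfl
    exact pow_ne_zero _ hw0 hf.symm
  let D : Place E (L0 E K0 (U := U)) →₀ ℤ := (FF.dv ff f).mapRange (fun z => z / 2) (by norm_num)
  have hD : ∀ P, ord P.ring f = 2 * D P := by
    intro P
    change ord P.ring f = 2 * (ord P.ring f / 2)
    obtain ⟨c, hc⟩ := hd P
    rw [hc]
    push_cast
    omega
  have hdv : FF.dv ff f = (2 : ℕ) • D := by
    ext P
    rw [Finsupp.smul_apply, FF.dv_apply, hD P, nsmul_eq_mul]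
    rfl
  have hdeg : FF.deg D = 0 := by
    have h1 : FF.deg (FF.dv ff f) = 0 := FF.deg_dv ff hf0
    rw [hdv, map_nsmul, nsmul_eq_mul] at h1
    push_cast at h1
    omega
  rw [FF.deg_eq] at hdeg
  obtain ⟨D', c, hc0, hc⟩ := FF.picDiv ff (2 ^ (m - 1)) (by positivity) D hdeg
  have hg0 : f / c ^ 2 ≠ 0 := div_ne_zero hf0 (pow_ne_zero _ hc0)
  have hg : ∀ P : Place E (L0 E K0 (U := U)), ((2 ^ m : ℕ) : ℤ) ∣ ord P.ring (f / c ^ 2) := by
    intro P
    rw [FF.ord_div ff P hf0 (pow_ne_zero _ hc0), FF.ord_pow ff P hc0, hD P, hc P]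
    refine ⟨D' P, ?_⟩
    obtain ⟨m', rfl⟩ : ∃ m', m = m' + 1 := ⟨m - 1, by omega⟩
    rw [Nat.add_sub_cancel]
    push_cast
    ring
  obtain ⟨w, hw⟩ := hroot (2 ^ m) (by positivity) _ hg0 hg
  have hcU0 : (c : U) ≠ 0 := fun h => hc0 (Subtype.ext h)
  have hwn : w ^ 2 ^ m = (w₂ / c) ^ 2 := by
    rw [hw, div_pow, ← hf]
    rfl
  have hww0 : w ≠ 0 := by
    rintro rfl
    rw [zero_pow (by positivity)] at hwn
    exact pow_ne_zero 2 (div_ne_zero hw0 hcU0) hwn.symm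
  refine ⟨w, ⟨hww0, f / c ^ 2, hw.symm, hg⟩, ?_⟩
  have h1 : (w ^ 2 ^ (m - 1)) ^ 2 = (w₂ / c) ^ 2 := by
    rw [← hwn, ← pow_mul, ← pow_succ, Nat.sub_add_cancel hm]
  rcases sq_eq_sq_iff_eq_or_eq_neg.1 h1 with h2 | h2
  · refine ⟨(c : U)⁻¹, inv_mem c.2, inv_ne_zero hcU0, ?_⟩
    rw [h2]
    ring
  · refine ⟨-(c : U)⁻¹, neg_mem (inv_mem c.2), neg_ne_zero.2 (inv_ne_zero hcU0), ?_⟩
    rw [h2]
    ring

/-- the units of `L0` -/
def LU29 (E K0 U : Type) [Field E] [Field K0] [Field U] [Algebra E U] [Algebra K0 U] :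
    Subgroup Uˣ where
  carrier := {u | (u : U) ∈ L0 E K0 (U := U)}
  mul_mem' := by
    intro a b ha hb
    change ((a * b : Uˣ) : U) ∈ L0 E K0 (U := U)
    rw [Units.val_mul]
    exact mul_mem ha hb
  one_mem' := by
    change ((1 : Uˣ) : U) ∈ L0 E K0 (U := U)
    rw [Units.val_one]
    exact one_mem _
  inv_mem' := by
    intro a ha
    change ((a⁻¹ : Uˣ) : U) ∈ L0 E K0 (U := U)
    rw [Units.val_inv_eq_inv_val]
    exact inv_mem ha

/-- the units in `UR n` -/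
def AU29 (ff : IsFunctionField E (L0 E K0 (U := U))) (n : ℕ) : Subgroup Uˣ where
  carrier := {u | UR E K0 n (u : U)}
  mul_mem' := by
    intro a b ha hb
    change UR E K0 n ((a * b : Uˣ) : U)
    rw [Units.val_mul]
    exact UR_mul29 ff ha hb
  one_mem' := by
    change UR E K0 n ((1 : Uˣ) : U)
    rw [Units.val_one]
    exact UR_L0_29 ff n one_ne_zero (one_mem _)
  inv_mem' := by
    intro a ha
    change UR E K0 n ((a⁻¹ : Uˣ) : U)
    rw [Units.val_inv_eq_inv_val]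
    exact UR_inv29 ff ha

/-- a homomorphism which kills the kernel factors -/
theorem lift29 {A G H : Type} [CommGroup A] [CommGroup G] [Group H] (κ : A →* G)
    (hs : Function.Surjective κ) (g : A →* H) (h : ∀ u, κ u = 1 → g u = 1) :
    ∃ g' : G →* H, ∀ u, g' (κ u) = g u :=
  ⟨κ.liftOfSurjective hs ⟨g, fun u hu => h u hu⟩, fun u =>
    MonoidHom.liftOfRightInverse_comp_apply κ _ _ ⟨g, fun u hu => h u hu⟩ u⟩

/-- the group of the classes of functions -/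
theorem exists_G29 (E K0 U : Type) [Field E] [Field K0] [Field U] [Algebra E U] [Algebra K0 U] :
    ∃ (G : Type) (_ : CommGroup G) (κ : Uˣ →* G), Function.Surjective κ ∧
      ∀ u : Uˣ, κ u = 1 ↔ (u : U) ∈ L0 E K0 (U := U) :=
  ⟨Uˣ ⧸ LU29 E K0 U, inferInstance, QuotientGroup.mk' (LU29 E K0 U),
    QuotientGroup.mk'_surjective _, fun u => QuotientGroup.eq_one_iff u⟩

variable {G : Type} [CommGroup G] {κ : Uˣ →* G}

theorem finite_AG29 (hκ : ∀ u : Uˣ, κ u = 1 ↔ (u : U) ∈ L0 E K0 (U := U)) (hFT : StmtFT)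
    (ff : IsFunctionField E (L0 E K0 (U := U))) {n : ℕ} (hn : 0 < n) :
    Finite ((AU29 ff n).map κ) := by
  classical
  obtain ⟨T, hT⟩ := fin29 (E := E) (K0 := K0) (U := U) hFT ff hn
  have h1 : (((AU29 ff n).map κ : Subgroup G) : Set G) ⊆
      (fun t : U => if h : t ≠ 0 then κ (Units.mk0 t h) else 1) '' (T : Set U) := by
    rintro _ ⟨u, hu, rfl⟩
    obtain ⟨t, ht, ht0, h2⟩ := hT u hu
    refine ⟨t, ht, ?_⟩
    simp only [dif_pos ht0]
    rw [eq_comm, ← div_eq_one, ← map_div, hκ]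
    rw [div_eq_mul_inv, Units.val_mul, Units.val_inv_eq_inv_val, Units.val_mk0]
    exact h2
  exact Set.Finite.subset (T.finite_toSet.image _) h1

omit [CharZero E] in
theorem pow_AG29 (hκ : ∀ u : Uˣ, κ u = 1 ↔ (u : U) ∈ L0 E K0 (U := U))
    (ff : IsFunctionField E (L0 E K0 (U := U))) {n : ℕ} {x : G} (hx : x ∈ (AU29 ff n).map κ) :
    x ^ n = 1 := by
  obtain ⟨u, ⟨-, f, hf, -⟩, rfl⟩ := hx
  rw [← map_pow, hκ, Units.val_pow_eq_pow_val, ← hf]
  exact f.2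

/-- a large subgroup contains a class of large order -/
theorem ext29 (hκ : ∀ u : Uˣ, κ u = 1 ↔ (u : U) ∈ L0 E K0 (U := U)) (hFT : StmtFT)
    (ff : IsFunctionField E (L0 E K0 (U := U))) {m s n₀ : ℕ}
    (hm : 0 < m) (hs : 0 < s) (hn₀ : 0 < n₀) (h2 : Nat.card ((AU29 ff 2).map κ) ≤ 2 ^ n₀)
    (H : Subgroup G) (hH : H ≤ (AU29 ff (2 ^ m)).map κ) (hcard : 2 ^ (n₀ * s) ≤ Nat.card H) :
    ∃ u : Uˣ, κ u ∈ H ∧ orderOf (κ u) = 2 ^ s ∧ s ≤ m ∧ UR E K0 (2 ^ s) (u : U) := by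
  have hfin : Finite ((AU29 ff (2 ^ m)).map κ) := finite_AG29 hκ hFT ff (by positivity)
  have hfin2 : Finite ((AU29 ff 2).map κ) := finite_AG29 hκ hFT ff two_pos
  have hfinH : Finite H := Finite.of_injective _ (Subgroup.inclusion_injective hH)
  have h3 : Nat.card {x : H // x ^ 2 = 1} ≤ 2 ^ n₀ := by
    refine le_trans ?_ h2
    have h4 : ∀ x : {x : H // x ^ 2 = 1}, (x.1.1 : G) ∈ (AU29 ff 2).map κ := by
      rintro ⟨⟨x, hx⟩, hx2⟩
      obtain ⟨u, hu, rfl⟩ := hH hx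
      refine ⟨u, ?_, rfl⟩
      have h5 : (κ u) ^ 2 = 1 := congrArg Subtype.val hx2
      rw [← map_pow, hκ, Units.val_pow_eq_pow_val] at h5
      have h6 := UR_low29 (s := 1) ff (by omega : 1 ≤ m) hu (by rwa [pow_one])
      rwa [pow_one] at h6
    refine Nat.card_le_card_of_injective
      (fun x : {x : H // x ^ 2 = 1} => (⟨x.1.1, h4 x⟩ : (AU29 ff 2).map κ)) ?_
    intro x y hxy
    exact Subtype.ext (Subtype.ext (Subtype.mk.inj hxy))
  obtain ⟨x, hx⟩ := exists_order29 (H := H) hn₀ hs h3 (m := m) (fun x => by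
    apply Subtype.ext
    rw [Subgroup.coe_pow]
    exact pow_AG29 hκ ff (hH x.2)) hcard
  obtain ⟨u, hu, hux⟩ := hH x.2
  have ho : orderOf (κ u) = 2 ^ s := by
    rw [hux, Subgroup.orderOf_coe, hx]
  have hsm : s ≤ m := by
    have h4 : orderOf (κ u) ∣ 2 ^ m := by
      apply orderOf_dvd_of_pow_eq_one
      rw [hux]
      exact pow_AG29 hκ ff (hH x.2)
    rw [ho] at h4
    exact (Nat.pow_dvd_pow_iff_le_right (by norm_num)).1 h4
  refine ⟨u, by rw [hux]; exact x.2, ho, hsm, UR_low29 ff hsm hu ?_⟩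
  rw [← Units.val_pow_eq_pow_val, ← hκ, map_pow, ← ho, pow_orderOf_eq_one]

end grp

/-- **BLOCK QW.** -/
theorem qW (hFT : StmtFT) (hW1 : StmtW1) : StmtQW := by
  classical
  intro k K0 E U _ _ _ _ _ _ _ _ _ _ _ _ h r geo
  have hcl : IsAlgClosed E := geo.clE
  have hch : CharZero E := charZero_of_injective_algebraMap (algebraMap k E).injective
  have ff := geo.ff
  have hroot : ∀ (n : ℕ), 0 < n → ∀ f : L0 E K0 (U := U), f ≠ 0 →
      (∀ P : Place E (L0 E K0 (U := U)), (n : ℤ) ∣ ord P.ring f) → ∃ w : U, w ^ n = f :=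
    fun n hn f hf hord => exists_root_of_dvd geo.cover.root ff hn hf hord
  obtain ⟨G, _, κ, hκs, hκ⟩ := exists_G29 E K0 U
  have hfinA : ∀ n : ℕ, 0 < n → Finite ((AU29 ff n).map κ) := fun n hn => finite_AG29 hκ hFT ff hn
  have hfin2 : Finite ((AU29 ff 2).map κ) := hfinA 2 two_pos
  obtain ⟨n₀, hn₀⟩ : ∃ n₀, n₀ = Nat.card ((AU29 ff 2).map κ) := ⟨_, rfl⟩
  have hn₀0 : 0 < n₀ := by
    rw [hn₀]
    exact Nat.card_pos
  have h2 : Nat.card ((AU29 ff 2).map κ) ≤ 2 ^ n₀ := by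
    rw [← hn₀]
    exact Nat.lt_two_pow_self.le
  refine ⟨n₀ * n₀, Nat.mul_pos hn₀0 hn₀0, ?_⟩
  rintro c Φ hc hΦ j σ hj ⟨a, haL, hcomm, w₂, hw₂, haw₂⟩
  obtain ⟨s, hs⟩ : ∃ s, s = n₀ * j := ⟨_, rfl⟩
  have hs0 : 0 < s := by
    rw [hs]
    exact Nat.mul_pos hn₀0 hj
  obtain ⟨m, hm⟩ : ∃ m, m = n₀ * s := ⟨_, rfl⟩
  have hm0 : 0 < m := by
    rw [hm]
    exact Nat.mul_pos hn₀0 hs0
  have hmj : n₀ * n₀ * j = m := by rw [hm, hs, mul_assoc]
  rw [hmj] at hcomm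
  obtain ⟨φ, hφ⟩ : ∃ φ, φ = Φ σ := ⟨_, rfl⟩
  rw [← hφ] at hcomm ⊢
  have hφE : ∀ e : E, φ (algebraMap E U e) = algebraMap E U (σ e) := by
    rw [hφ]
    exact hΦ.const σ
  have hΦL : ∀ (g : E ≃ₐ[k] E) (x : U), x ∈ L0 E K0 (U := U) → Φ g x ∈ L0 E K0 (U := U) :=
    fun g x hx => map_L0_99 (Φ g) g (hΦ.const g) (hΦ.fixK g) hx
  have hinv : ∀ x : U, Φ σ⁻¹ (φ x) = x := by
    intro x
    have h1 : Φ σ⁻¹ * Φ σ = 1 := by rw [← map_mul, inv_mul_cancel, map_one]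
    rw [hφ]
    exact congrArg (fun g : U ≃+* U => g x) h1
  have hinv' : ∀ x : U, φ (Φ σ⁻¹ x) = x := by
    intro x
    have h1 : Φ σ * Φ σ⁻¹ = 1 := by rw [← map_mul, mul_inv_cancel, map_one]
    rw [hφ]
    exact congrArg (fun g : U ≃+* U => g x) h1
  have hφL : ∀ x : U, x ∈ L0 E K0 (U := U) ↔ φ x ∈ L0 E K0 (U := U) := by
    intro x
    constructor
    · intro hx
      rw [hφ]
      exact hΦL σ x hx
    · intro hx
      rw [← hinv x]
      exact hΦL σ⁻¹ _ hx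
  have hφUR : ∀ (n : ℕ) (w : U), UR E K0 n w → UR E K0 n (φ w) := by
    intro n w hw
    exact map_UR99 ff φ (Φ σ⁻¹) σ hφE (by rw [hφ]; exact hΦ.fixK σ) (fun e => hΦ.const σ⁻¹ e)
      (hΦ.fixK σ⁻¹) hinv' hinv hw
  obtain ⟨χ, hχ⟩ := cyc29 (E := E) σ.toRingEquiv (n := 2 ^ m) (by positivity)
  -- the action on the classes
  let φu : Uˣ →* Uˣ := Units.map (φ : U →* U)
  have hφu : ∀ u : Uˣ, ((φu u : Uˣ) : U) = φ u := fun u => rfl
  obtain ⟨φG, hφG⟩ := lift29 κ hκs (κ.comp φu) (fun u hu => by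
    rw [MonoidHom.comp_apply, hκ, hφu]
    rw [hκ] at hu
    exact (hφL _).1 hu)
  rw [MonoidHom.coe_comp] at hφG
  simp only [Function.comp_apply] at hφG
  obtain ⟨A, hA⟩ : ∃ A : ℕ → Subgroup G, A = fun n => (AU29 ff n).map κ := ⟨_, rfl⟩
  have hAm : ∀ n, A n = (AU29 ff n).map κ := fun n => by rw [hA]
  have hφA : ∀ (n : ℕ), ∀ x ∈ A n, φG x ∈ A n := by
    intro n x hx
    rw [hAm] at hx ⊢
    obtain ⟨u, hu, rfl⟩ := hx
    exact ⟨φu u, hφUR n u hu, (hφG u).symm⟩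
  have hfinA' : ∀ n : ℕ, 0 < n → Finite (A n) := fun n hn => by
    rw [hAm]
    exact hfinA n hn
  have hfinm : Finite (A (2 ^ m)) := hfinA' _ (by positivity)
  let ψ : A (2 ^ m) →* A (2 ^ m) :=
    { toFun := fun x => ⟨φG x / (x : G) ^ χ,
        Subgroup.div_mem _ (hφA _ _ x.2) (Subgroup.pow_mem _ x.2 _)⟩
      map_one' := Subtype.ext (by
        change φG 1 / 1 ^ χ = 1
        rw [map_one, one_pow, div_one])
      map_mul' := fun x y => Subtype.ext (by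
        change φG ((x : G) * y) / ((x : G) * y) ^ χ = (φG x / (x : G) ^ χ) * (φG y / (y : G) ^ χ)
        rw [map_mul, mul_pow, mul_div_mul_comm]) }
  have hψ : ∀ x : A (2 ^ m), ((ψ x : A (2 ^ m)) : G) = φG x / (x : G) ^ χ := fun x => rfl
  -- the character given by `a`
  let cU : Uˣ →* Uˣ := Units.map (a : U →* U) / MonoidHom.id Uˣ
  have hcU : ∀ u : Uˣ, ((cU u : Uˣ) : U) = a u / u := by
    intro u
    change ((Units.map (a : U →* U) u / u : Uˣ) : U) = _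
    rw [Units.val_div_eq_div_val]
    rfl
  obtain ⟨cG, hcG⟩ := lift29 κ hκs cU (by
    intro u hu
    rw [hκ] at hu
    apply Units.ext
    rw [hcU, haL _ hu, div_self u.ne_zero, Units.val_one])
  have hcount := count29 ψ (cG.comp (A (2 ^ m)).subtype) (by
    rintro ⟨x, hx⟩
    change cG (φG x / x ^ χ) = 1
    rw [hAm] at hx
    obtain ⟨u, hu, rfl⟩ := hx
    rw [map_div, map_pow, hφG, hcG, hcG]
    obtain ⟨ζ, hζ, haw⟩ := eig99 (E := E) (K0 := K0) (by positivity : 0 < 2 ^ m) hu a haL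
    have hu0 : (u : U) ≠ 0 := u.ne_zero
    have hφu0 : φ (u : U) ≠ 0 := (map_ne_zero φ).2 hu0
    apply Units.ext
    rw [Units.val_div_eq_div_val, Units.val_pow_eq_pow_val, hcU, hcU, hφu, hcomm _ hu, haw,
      map_mul, hφE, mul_div_cancel_right₀ _ hφu0, mul_div_cancel_right₀ _ hu0]
    have h5 : σ ζ = ζ ^ χ := hχ ζ hζ
    rw [h5, map_pow, Units.val_one, div_self]
    refine pow_ne_zero _ ((map_ne_zero _).2 ?_)
    rintro rfl
    rw [zero_pow (by positivity)] at hζ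
    exact zero_ne_one hζ)
  -- the image of the character is large
  have hrange : 2 ^ m ≤ Nat.card (cG.comp (A (2 ^ m)).subtype).range := by
    obtain ⟨w, hw, l, hl, hl0, hwl⟩ := div29 ff hroot hw₂ hm0
    have hw0 : w ≠ 0 := hw.1
    have hw20 : w₂ ≠ 0 := hw₂.1
    obtain ⟨u, hu⟩ : ∃ u : Uˣ, (u : U) = w := ⟨Units.mk0 w hw0, rfl⟩
    have huA : κ u ∈ A (2 ^ m) := by
      rw [hAm]
      exact ⟨u, by
        change UR E K0 (2 ^ m) (u : U)
        rw [hu]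
        exact hw, rfl⟩
    have hmem : cU u ∈ (cG.comp (A (2 ^ m)).subtype).range := ⟨⟨_, huA⟩, hcG u⟩
    have h6 : (cU u) ^ 2 ^ m = 1 := by
      obtain ⟨ζ, hζ, haw⟩ := eig99 (E := E) (K0 := K0) (by positivity : 0 < 2 ^ m) hw a haL
      apply Units.ext
      rw [Units.val_pow_eq_pow_val, hcU, hu, haw, mul_div_cancel_right₀ _ hw0, ← map_pow, hζ,
        map_one, Units.val_one]
    have h7 : (cU u) ^ 2 ^ (m - 1) ≠ 1 := by
      intro h8
      have h9 : ((cU u : Uˣ) : U) ^ 2 ^ (m - 1) = 1 := by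
        rw [← Units.val_pow_eq_pow_val, h8, Units.val_one]
      rw [hcU, hu, div_pow, ← map_pow, hwl, map_mul, haL l hl,
        div_eq_one_iff_eq (mul_ne_zero hl0 hw20)] at h9
      exact haw₂ (mul_left_cancel₀ hl0 h9)
    have h8 : orderOf (cU u) = 2 ^ m := by
      obtain ⟨m', rfl⟩ : ∃ m', m = m' + 1 := ⟨m - 1, by omega⟩
      exact orderOf_eq_prime_pow (p := 2) h7 h6
    have hfr : Finite (cG.comp (A (2 ^ m)).subtype).range :=
      Finite.of_surjective _ (MonoidHom.rangeRestrict_surjective (cG.comp (A (2 ^ m)).subtype))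
    have h9 : orderOf (⟨cU u, hmem⟩ : (cG.comp (A (2 ^ m)).subtype).range) = orderOf (cU u) :=
      Subgroup.orderOf_mk _ _
    have h10 := orderOf_le_card (x := (⟨cU u, hmem⟩ : (cG.comp (A (2 ^ m)).subtype).range))
    rwa [h9, h8] at h10
  -- a class multiplied by the cyclotomic character
  obtain ⟨u, huH, huo, hsm, huUR⟩ := ext29 hκ hFT ff hm0 hs0 hn₀0 h2
    (ψ.ker.map (A (2 ^ m)).subtype) (by
      rintro _ ⟨x, -, rfl⟩
      rw [← hAm]
      exact x.2) (by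
      rw [← hm, Subgroup.card_map_of_injective (Subgroup.subtype_injective _)]
      exact hrange.trans hcount)
  obtain ⟨x, hx, hxu⟩ := huH
  have hxψ : φG (κ u) = (κ u) ^ χ := by
    have h5 : ((ψ x : A (2 ^ m)) : G) = 1 := congrArg Subtype.val hx
    rw [hψ, div_eq_one] at h5
    have h6 : (x : G) = κ u := hxu
    rwa [h6] at h5
  have hφw : ∃ l ∈ L0 E K0 (U := U), φ (u : U) = l * (u : U) ^ χ := by
    rw [hφG, ← map_pow, ← div_eq_one, ← map_div, hκ, Units.val_div_eq_div_val,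
      Units.val_pow_eq_pow_val, hφu] at hxψ
    exact ⟨_, hxψ, by rw [div_mul_cancel₀ _ (pow_ne_zero _ u.ne_zero)]⟩
  have hpm : ∀ j : ℕ, (u : U) ^ j ∈ L0 E K0 (U := U) → 2 ^ s ∣ j := by
    intro j hj
    rw [← huo]
    apply orderOf_dvd_of_pow_eq_one
    rw [← map_pow, hκ, Units.val_pow_eq_pow_val]
    exact hj
  obtain ⟨-, fw, hfw, hfd⟩ := huUR
  obtain ⟨f, hf⟩ := w1U29 hW1 (L0 E K0 (U := U)) ff (n := 2 ^ s)
    (Nat.one_lt_two_pow hs0.ne') u.ne_zero fw hfw hfd (fun j h1 h3 h4 =>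
      absurd (Nat.le_of_dvd h1 (hpm j h4)) (not_le.2 h3)) φ σ.toRingEquiv χ hφE hφL
    (fun ζ hζ => hχ ζ (by
      obtain ⟨i, hi⟩ : ∃ i, m = s + i := ⟨m - s, by omega⟩
      rw [hi, pow_add, pow_mul, hζ, one_pow])) hφw
  -- the fixed classes
  choose g hg using fun i => hroot (2 ^ s) (by positivity) (f i) (hf i).1 (hf i).2.1
  have hg0 : ∀ i, g i ≠ 0 := by
    intro i h0
    have h5 := hg i
    rw [h0, zero_pow (by positivity)] at h5
    exact (hf i).1 (Subtype.ext h5.symm)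
  have hfins : Finite (A (2 ^ s)) := hfinA' _ (by positivity)
  let θ : A (2 ^ s) →* A (2 ^ s) :=
    { toFun := fun x => ⟨φG x / (x : G),
        Subgroup.div_mem _ (hφA _ _ x.2) x.2⟩
      map_one' := Subtype.ext (by
        change φG 1 / 1 = 1
        rw [map_one, div_one])
      map_mul' := fun x y => Subtype.ext (by
        change φG ((x : G) * y) / ((x : G) * y) =
          (φG x / (x : G)) * (φG y / (y : G))
        rw [map_mul, mul_div_mul_comm]) }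
  have hθ : ∀ x : A (2 ^ s), ((θ x : A (2 ^ s)) : G) =
      φG x / (x : G) := fun x => rfl
  have hgA : ∀ i, κ (Units.mk0 (g i) (hg0 i)) ∈ A (2 ^ s) := fun i => by
    rw [hAm]
    exact ⟨Units.mk0 (g i) (hg0 i), ⟨hg0 i, f i, (hg i).symm, (hf i).2.1⟩, rfl⟩
  have hgker : ∀ i, (⟨_, hgA i⟩ : A (2 ^ s)) ∈ θ.ker := by
    intro i
    rw [MonoidHom.mem_ker]
    apply Subtype.ext
    rw [hθ]
    change φG (κ (Units.mk0 (g i) (hg0 i))) /
      κ (Units.mk0 (g i) (hg0 i)) = 1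
    rw [hφG, ← map_div, hκ, Units.val_div_eq_div_val, hφu, Units.val_mk0]
    obtain ⟨l, hl, h5⟩ := (hf i).2.2.1
    have hl0 : l ≠ 0 := by
      rintro rfl
      rw [zero_pow (by positivity), mul_zero, map_eq_zero] at h5
      exact (hf i).1 (Subtype.ext h5)
    have h6 : (φ (g i) / (g i * l)) ^ 2 ^ s = 1 := by
      rw [div_pow, ← map_pow, hg, h5, mul_pow, hg, div_self]
      refine mul_ne_zero ?_ (pow_ne_zero _ hl0)
      exact fun h7 => (hf i).1 (Subtype.ext h7)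
    obtain ⟨ζ, -, hζ⟩ := root_const99 (E := E) (by positivity) h6
    have h7 : φ (g i) / g i = algebraMap E U ζ * l := by
      rw [hζ]
      have := hg0 i
      field_simp
    rw [h7]
    exact mul_mem (IntermediateField.algebraMap_mem _ _) hl
  have hcardθ : 2 ^ s ≤ Nat.card θ.ker := by
    have h5 : Function.Injective (fun i : Fin (2 ^ s) => (⟨_, hgker i⟩ : θ.ker)) := by
      intro i i' hii
      by_contra hne
      have h6 : κ (Units.mk0 (g i) (hg0 i)) =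
          κ (Units.mk0 (g i') (hg0 i')) :=
        congrArg (fun x : θ.ker => ((x : A (2 ^ s)) : G)) hii
      rw [← div_eq_one, ← map_div, hκ, Units.val_div_eq_div_val, Units.val_mk0,
        Units.val_mk0] at h6
      refine (hf i).2.2.2 i' (fun h => hne h.symm) ⟨_, h6⟩ ?_
      apply Subtype.ext
      change (f i : U) = (f i' : U) * (g i / g i') ^ 2 ^ s
      rw [← hg, ← hg, div_pow, mul_div_cancel₀ _ (pow_ne_zero _ (hg0 i'))]
    have h6 := Nat.card_le_card_of_injective _ h5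
    rwa [Nat.card_eq_fintype_card, Fintype.card_fin] at h6
  obtain ⟨v, hvH, hvo, hjs, hvUR⟩ := ext29 hκ hFT ff hs0 hj hn₀0 h2
    (θ.ker.map (A (2 ^ s)).subtype) (by
      rintro _ ⟨x, -, rfl⟩
      rw [← hAm]
      exact x.2) (by
      rw [← hs, Subgroup.card_map_of_injective (Subgroup.subtype_injective _)]
      exact hcardθ)
  obtain ⟨y, hy, hyv⟩ := hvH
  refine ⟨v, hvUR, fun h5 => ?_, ?_⟩
  · have h6 : (κ v) ^ 2 ^ (j - 1) = 1 := by
      rw [← map_pow, hκ, Units.val_pow_eq_pow_val]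
      exact h5
    have h7 := orderOf_dvd_of_pow_eq_one h6
    rw [hvo] at h7
    have h8 := (Nat.pow_dvd_pow_iff_le_right (by norm_num)).1 h7
    omega
  · have h5 : ((θ y : A (2 ^ s)) : G) = 1 := congrArg Subtype.val hy
    have h6 : (y : G) = κ v := hyv
    rw [hθ, h6, hφG, ← map_div, hκ, Units.val_div_eq_div_val, hφu, div_eq_mul_inv] at h5
    exact h5

end

end Pool.Agent.M
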